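import Pool.Graph.R_seed8.Results.MP_7161f1_al.OneTapeLinear

/-!
# Normal forms with finite-state right multiplications (MP_7161f1_al)
-/

set_option autoImplicit false

namespace Pool.Agent.KS6_76.TFX

open Pool.Agent.R652.CA Pool.Agent.R652.TF List

/-- The relation is realised, on words followed by sufficiently many blanks, by one
length-preserving finite-state function. -/
def Rob {A : Type} (R : List A → List A → Prop) : Prop :=
  ∃ (F : List (Option A) → List (Option A)) (c : ℕ), IsBim F ∧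
    ∀ w w', R w w' → ∀ j : ℕ, ∃ j' : ℕ, j ≤ j' ∧
      F (w.map some ++ replicate (j + c) none) = w'.map some ++ replicate j' none

/-- The group has normal forms for which all right multiplications are realised by finite-state
functions. -/
def NF (G : Type) [Group G] : Prop :=
  ∃ (A : Type) (_ : Finite A) (nf : G → List A), Function.Injective nf ∧
    ∀ s : G, Rob (fun w w' => ∃ g, w = nf g ∧ w' = nf (g * s))

theorem rob_mono {A : Type} {R R' : List A → List A → Prop} (h : Rob R)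
    (hR : ∀ w w', R' w w' → R w w') : Rob R' := by
  obtain ⟨F, c, hF, h⟩ := h
  exact ⟨F, c, hF, fun w w' hw j => h w w' (hR w w' hw) j⟩

theorem rob_id {A : Type} : Rob (fun (w w' : List A) => w' = w) := by
  refine ⟨List.map id, 0, bim_map _ _ _, ?_⟩
  rintro w _ rfl j
  exact ⟨j, le_refl _, by simp⟩

theorem rob_comp {A : Type} {R₁ R₂ : List A → List A → Prop} (h₁ : Rob R₁) (h₂ : Rob R₂) :
    Rob (fun w w'' => ∃ w', R₁ w w' ∧ R₂ w' w'') := by
  obtain ⟨F₁, c₁, hF₁, h₁⟩ := h₁
  obtain ⟨F₂, c₂, hF₂, h₂⟩ := h₂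
  refine ⟨fun w => F₂ (F₁ w), c₁ + c₂, bim_comp _ _ _ F₁ F₂ hF₁ hF₂, ?_⟩
  rintro w w'' ⟨w', hr₁, hr₂⟩ j
  obtain ⟨j₁, hj₁, e₁⟩ := h₁ w w' hr₁ (j + c₂)
  obtain ⟨j₂, hj₂, e₂⟩ := h₂ w' w'' hr₂ (j₁ - c₂)
  refine ⟨j₂, by omega, ?_⟩
  have a1 : j + (c₁ + c₂) = j + c₂ + c₁ := by omega
  have a2 : j₁ - c₂ + c₂ = j₁ := by omega
  rw [a2] at e₂
  show F₂ (F₁ _) = _
  rw [a1, e₁, e₂]

/-- the transition function on padded words -/
def ostp {A Q : Type} (step : Q → A → Q) : Q → Option A → Q
  | q, none => q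
  | q, some L => step q L

theorem foldl_ostp {A Q : Type} (step : Q → A → Q) (w : List A) (k : ℕ) (q : Q) :
    (w.map some ++ replicate k none).foldl (ostp step) q = w.foldl step q := by
  rw [List.foldl_append, List.foldl_map]
  have : ∀ (k : ℕ) (q : Q), (replicate k (none : Option A)).foldl (ostp step) q = q := by
    intro k
    induction k with
    | zero => intro q; rfl
    | succ k ih => intro q; rw [List.replicate_succ, List.foldl_cons]; exact ih _
  rw [this]
  rfl

theorem rob_ite {A Q : Type} [Finite Q] (step : Q → A → Q) (q0 : Q) (acc : Q → Bool)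
    {R₁ R₂ : List A → List A → Prop} (h₁ : Rob R₁) (h₂ : Rob R₂) :
    Rob (fun w w' => if acc (w.foldl step q0) = true then R₁ w w' else R₂ w w') := by
  obtain ⟨F₁, c₁, hF₁, h₁⟩ := h₁
  obtain ⟨F₂, c₂, hF₂, h₂⟩ := h₂
  refine ⟨fun w => if acc (w.foldl (ostp step) q0) = true then F₁ w else F₂ w, c₁ + c₂,
    bim_ite _ _ Q inferInstance (ostp step) q0 acc F₁ F₂ hF₁ hF₂, ?_⟩
  intro w w' hr j
  have a1 : j + (c₁ + c₂) = j + c₂ + c₁ := by omega
  have a2 : j + (c₁ + c₂) = j + c₁ + c₂ := by omega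
  by_cases h : acc (w.foldl step q0) = true
  · rw [if_pos h] at hr
    obtain ⟨j', hj', e⟩ := h₁ w w' hr (j + c₂)
    refine ⟨j', by omega, ?_⟩
    simp only [foldl_ostp]
    rw [if_pos h, a1, e]
  · rw [if_neg h] at hr
    obtain ⟨j', hj', e⟩ := h₂ w w' hr (j + c₁)
    refine ⟨j', by omega, ?_⟩
    simp only [foldl_ostp]
    rw [if_neg h, a2, e]

/-- the class of groups with such normal forms is contained in the class of Cayley
position-faithful one-tape linear-time computable groups -/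
theorem NF.cayley {G : Type} [Group G] (h : NF G) (Sg : Set G) : CayleyAutomaticFunctions G Sg := by
  obtain ⟨A, hA, nf, hinj, hR⟩ := h
  choose F c hF hFc using hR
  let Lg : Set (List A) := Set.range nf
  choose gg hgg using fun w : Lg => w.2
  have hgg_of : ∀ (w : Lg) (g : G), w.1 = nf g → gg w = g := by
    intro w g h
    exact hinj ((hgg w).trans h)
  refine ⟨A, hA, Lg, gg, fun g w => unpad (F g (w.map some ++ replicate (c g) none)),
    ⟨?_, ?_⟩, ?_, ?_⟩
  · intro w w' h
    apply Subtype.ext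
    rw [← hgg w, ← hgg w', h]
  · intro g
    exact ⟨⟨nf g, g, rfl⟩, hgg_of _ g rfl⟩
  · intro s _
    exact ⟨auto_thm A hA (F s) (hF s) (c s), tm_thm A hA (F s) (hF s) (c s)⟩
  · intro s _ w
    obtain ⟨j', _, hj'⟩ := hFc s _ _ ⟨gg w, rfl, rfl⟩ 0
    have hval : unpad (F s (w.1.map some ++ replicate (c s) none)) = nf (gg w * s) := by
      rw [Nat.zero_add] at hj'
      rw [← hgg w, hj', unpad_map]
    refine ⟨?_, ?_⟩
    · change unpad (F s (w.1.map some ++ replicate (c s) none)) ∈ Lg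
      rw [hval]
      exact ⟨_, rfl⟩
    · exact hgg_of _ _ hval

/-- subgroups -/
theorem NF.sub {G H : Type} [Group G] [Group H] (h : NF G) (φ : H →* G)
    (hφ : Function.Injective φ) : NF H := by
  obtain ⟨A, hA, nf, hinj, hR⟩ := h
  refine ⟨A, hA, fun x => nf (φ x), hinj.comp hφ, fun s => rob_mono (hR (φ s)) ?_⟩
  rintro _ _ ⟨g, rfl, rfl⟩
  exact ⟨φ g, rfl, by simp only [map_mul]⟩

end Pool.Agent.KS6_76.TFX
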