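import Pool.Agent.KS6_76.TFX.Base

/-!
# Thompson's group F has normal forms with finite-state right multiplications (MP_7161f1_al)

The proof is the one of the library theorem `Pool.Agent.R652.TF.main_of`; only its last step is
different.
-/

set_option autoImplicit false

namespace Pool.Agent.KS6_76.TFX

open Pool.Agent.R652.CA Pool.Agent.R652.TF List

theorem nf_of (hm : StmBimMap) (hc : StmUniComp) (hi : StmUniIte) (hr : StmR) (hA : StmApp)
    (ha : StmTrim) (hact : StmAct) (hli : StmListInj) (hls : StmListSpl) (hlj : StmListJoi)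
    (hti : StmTapeInjC) (hsp : StmSplit) (hex : StmExpandC) (hjo : StmJoin) (hre : StmReduce)
    (hap : StmAppendC) (hdr : StmDrop) (htn : StmTestNode) (htr : StmTestRed)
    (htd : StmTestDrop) : NF FG := by
  obtain ⟨a, a1, amul, axx, axi, afree⟩ := hact
  -- states
  let St : FG → List CT → Prop := fun g L => CL L ∧ Pool.Agent.R652.TF.sq L = (a base g).1
  have afree' : ∀ g h : FG, a base g = a base h → g = h := by
    intro g h hgh
    have : a base (g * h⁻¹) = base := by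
      rw [amul, hgh, ← amul, mul_inv_cancel, a1]
    have := afree _ this
    exact mul_inv_eq_one.mp this
  have stInj : ∀ g L L', St g L → St g L' → L = L' := fun g L L' h h' =>
    hli L L' h.1 h'.1 (h.2.trans h'.2.symm)
  have stInj' : ∀ g h L, St g L → St h L → g = h := fun g h L hg hh =>
    afree' g h (Subtype.ext (hg.2.symm.trans hh.2))
  have st1 : St 1 [l0, l0, l0] := by
    refine ⟨⟨by simp, Or.inl (by simp), ?_⟩, ?_⟩
    · intro t ht
      simp at ht
      subst ht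
      trivial
    · rw [a1]
      funext k
      simp only [Pool.Agent.R652.TF.sq, base]
      match k with
      | 0 => rfl
      | 1 => rfl
      | 2 => rfl
      | k + 3 => simp
  have hx0 : xx 0 = g0 := rfl
  have hx1 : xx 1 = g1 := by simp [xx]
  -- one step
  have stSpl : ∀ i ≤ 1, ∀ g L, St g L → ∃ L1 t L2 L', L = L1 ++ t :: L2 ∧ L1.length = i ∧
      NormL (L1 ++ (spl t).1 :: (spl t).2 :: L2) L' ∧ St (g * xx i) L' := by
    intro i hi1 g L hst
    obtain ⟨L1, t, L2, rfl, hlen, h⟩ := hls i hi1 L hst.1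
    obtain ⟨L', hL'⟩ := exists_norm (L1 ++ (spl t).1 :: (spl t).2 :: L2)
    obtain ⟨h1, h2⟩ := h L' hL'
    refine ⟨L1, t, L2, L', rfl, hlen, hL', h1, ?_⟩
    rw [h2, amul, axx, hst.2]
  have stJoi : ∀ i ≤ 1, ∀ g L, St g L → ∃ L1 l r L2 L', L ++ [l0] = L1 ++ l :: r :: L2 ∧
      L1.length = i ∧ NormL (L1 ++ joi l r :: L2) L' ∧ St (g * (xx i)⁻¹) L' := by
    intro i hi1 g L hst
    obtain ⟨L1, l, r, L2, hL, hlen, h⟩ := hlj i hi1 L hst.1
    obtain ⟨L', hL'⟩ := exists_norm (L1 ++ joi l r :: L2)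
    obtain ⟨h1, h2⟩ := h L' hL'
    refine ⟨L1, l, r, L2, L', hL, hlen, hL', h1, ?_⟩
    rw [h2, amul, axi, hst.2]
  have hgenmem : ∀ s ∈ ({g0, g1, g0⁻¹, g1⁻¹} : Set FG), ∃ i ≤ 1, s = xx i ∨ s = (xx i)⁻¹ := by
    intro s hs
    rcases hs with rfl | rfl | rfl | hs
    · exact ⟨0, by omega, Or.inl hx0.symm⟩
    · exact ⟨1, le_refl _, Or.inl hx1.symm⟩
    · exact ⟨0, by omega, Or.inr (by rw [hx0])⟩
    · rw [Set.mem_singleton_iff] at hs
      subst hs
      exact ⟨1, le_refl _, Or.inr (by rw [hx1])⟩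
  have hsurj : ∀ g : FG, ∃ L, St g L := by
    intro g
    have hg : g ∈ Submonoid.closure ({g0, g1, g0⁻¹, g1⁻¹} : Set FG) := by
      rw [closure_top]; trivial
    induction hg using Submonoid.closure_induction_right with
    | one => exact ⟨_, st1⟩
    | mul_right g hg s hs ih =>
      obtain ⟨L, hL⟩ := ih
      obtain ⟨i, hi1, rfl | rfl⟩ := hgenmem s hs
      · obtain ⟨_, _, _, L', _, _, _, h⟩ := stSpl i hi1 g L hL
        exact ⟨L', h⟩
      · obtain ⟨_, _, _, _, L', _, _, _, h⟩ := stJoi i hi1 g L hL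
        exact ⟨L', h⟩
  -- relation on tapes
  let RelF : FG → List (Inf × ℕ) → List (Inf × ℕ) → Prop := fun s ℓ ℓ' =>
    ∃ g L L', St g L ∧ St (g * s) L' ∧ ℓ = tapeC L 0 ∧ ℓ' = tapeC L' 0
  have huni : ∀ s : FG, Uni (RelF s) := by
    intro g
    have hg : g ∈ Submonoid.closure ({g0, g1, g0⁻¹, g1⁻¹} : Set FG) := by
      rw [closure_top]; trivial
    induction hg using Submonoid.closure_induction with
    | mem s hs =>
      obtain ⟨i, hi1, rfl | rfl⟩ := hgenmem s hs
      · refine uni_mono (hc _ _ _ (uni_spl hm hc hi hr hA ha hsp hex htn i hi1)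
          (uni_norm hm hc hi hr ha hdr htd)) ?_
        rintro _ _ ⟨g, L, L', hL, hL', rfl, rfl⟩
        obtain ⟨L1, t, L2, L'', rfl, hlen, hn, hst⟩ := stSpl i hi1 g L hL
        obtain rfl := stInj _ _ _ hL' hst
        exact ⟨_, ⟨L1, t, L2, hlen, rfl, rfl⟩, ⟨_, L', hn, rfl, rfl⟩⟩
      · refine uni_mono (hc _ _ _ (uni_appendL hm hc hr hA hap)
          (hc _ _ _ (uni_joi hm hc hi hr hA ha hjo hre htr i hi1)
            (uni_norm hm hc hi hr ha hdr htd))) ?_
        rintro _ _ ⟨g, L, L', hL, hL', rfl, rfl⟩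
        obtain ⟨L1, l, r, L2, L'', hLL, hlen, hn, hst⟩ := stJoi i hi1 g L hL
        obtain rfl := stInj _ _ _ hL' hst
        refine ⟨_, ⟨L, rfl, rfl⟩, _, ⟨L1, l, r, L2, hlen, by rw [hLL], rfl⟩,
          ⟨_, L', hn, rfl, rfl⟩⟩
    | one =>
      refine uni_mono (uni_id hm) ?_
      rintro _ _ ⟨g, L, L', hL, hL', rfl, rfl⟩
      rw [mul_one] at hL'
      rw [stInj _ _ _ hL hL']
    | mul s t _ _ ihs iht =>
      refine uni_mono (hc _ _ _ ihs iht) ?_
      rintro _ _ ⟨g, L, L', hL, hL', rfl, rfl⟩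
      obtain ⟨K, hK⟩ := hsurj (g * s)
      refine ⟨tapeC K 0, ⟨g, L, K, hL, hK, rfl, rfl⟩, ⟨g * s, K, L', hK, ?_, rfl, rfl⟩⟩
      rwa [mul_assoc]
  choose F c hF hFc using huni
  choose LL hLL using hsurj
  refine ⟨Letter Inf, inferInstance, fun g => enc (tapeC (LL g) 0), ?_, ?_⟩
  · intro g g' h
    have h1 := hti _ _ h
    exact stInj' _ _ (LL g) (hLL g) (h1 ▸ hLL g')
  · intro s
    refine ⟨F s, c s, hF s, ?_⟩
    rintro _ _ ⟨g, rfl, rfl⟩ j
    exact hFc s _ _ ⟨g, LL g, LL (g * s), hLL _, hLL _, rfl, rfl⟩ j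

theorem nf_thompson : NF FG := by
  have hblk : StmBlk := blk_thm up down
  have hr : StmR := r_thm bim_map bim_comp bim_zip bim_ctx bim_pad hblk zero_thm
  have happ : StmApp := app_thm bim_L b0_thm
  have htrim : StmTrim := trim_thm bim_map bim_comp bim_ctx bim_L bim_R
  have htrn : StmTrn := trn_thm seq_thm
  exact nf_of bim_map (uni_comp bim_comp) (uni_ite bim_ite) hr happ htrim
    (act_thm hom_thm (frac_thm rel_thm) (pos_thm rel_thm)) list_inj list_spl list_joi tape_inj_c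
    (split_thm htrn valid_c) (expand_thm htrn valid_c) (join_thm htrn valid_c)
    (reduce_thm htrn valid_c) (append_thm htrn valid_c) (drop_thm htrn valid_c)
    test_node test_red test_drop

end Pool.Agent.KS6_76.TFX
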