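import Pool.Agent.KS6_76.TFX.Base

/-!
# Free products (MP_7161f1_al)
-/

set_option autoImplicit false

namespace Pool.Agent.KS6_76.TFX

open Pool.Agent.R652.CA Pool.Agent.R652.TF List

/-! ## Appending a fixed word -/

theorem rob_app1 {A : Type} (a : A) : Rob (fun w w' => w' = w ++ [a]) := by
  let dl : Bool → Option A → Bool := fun q x => q || x.isNone
  let out : Bool → Option A → Unit → Option A := fun q x _ => if q then x else some (x.getD a)
  have h1 : ∀ (w : List (Option A)), bimRun dl (fun _ _ => ()) () out true w = w := by
    intro w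
    induction w with
    | nil => rfl
    | cons x w ih => simp only [bimRun]; rw [show dl true x = true from rfl, ih]; rfl
  refine ⟨bimRun dl (fun _ _ => ()) () out false, 1, ⟨Bool, Unit, inferInstance, inferInstance,
    false, (), dl, fun _ _ => (), out, fun _ => rfl⟩, ?_⟩
  rintro w _ rfl j
  refine ⟨j, le_refl _, ?_⟩
  induction w with
  | nil =>
    rw [List.replicate_succ]
    show some a :: bimRun dl _ _ out true _ = _
    rw [h1]
    rfl
  | cons x w ih =>
    have e : bimRun dl (fun _ _ => ()) () out false ((x :: w).map some ++ replicate (j + 1) none) =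
        some x :: bimRun dl (fun _ _ => ()) () out false (w.map some ++ replicate (j + 1) none) :=
      rfl
    rw [e, ih]
    rfl

theorem rob_app {A : Type} (v : List A) : Rob (fun w w' => w' = w ++ v) := by
  induction v with
  | nil => exact rob_mono rob_id (by rintro w _ rfl; simp)
  | cons a v ih =>
    refine rob_mono (rob_comp (rob_app1 a) ih) ?_
    rintro w _ rfl
    exact ⟨_, rfl, by simp⟩

/-! ## Words divided into blocks -/

section Block

variable {ι : Type} {A : ι → Type}

/-- a block -/
def blk (i : ι) (u : List (A i)) : List (ι ⊕ (Σ i, A i)) :=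
  Sum.inl i :: u.map (fun a => Sum.inr ⟨i, a⟩)

/-- remove the last block -/
theorem rob_erase : Rob (fun (w w' : List (ι ⊕ (Σ i, A i))) => ∃ i u, w = w' ++ blk i u) := by
  let dr : Option (ι ⊕ (Σ i, A i)) → Bool → Bool := fun x r => r || (match x with
    | some (Sum.inl _) => true
    | _ => false)
  let out : Unit → Option (ι ⊕ (Σ i, A i)) → Bool → Option (ι ⊕ (Σ i, A i)) := fun _ x r =>
    if r then x else none
  refine ⟨bimRun (fun _ _ => ()) dr false out (), 0, ⟨Unit, Bool, inferInstance, inferInstance,
    (), false, fun _ _ => (), dr, out, fun _ => rfl⟩, ?_⟩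
  rintro _ p ⟨i, u, rfl⟩ j
  refine ⟨u.length + 1 + j, by omega, ?_⟩
  have h0 : ∀ N, (replicate N (none : Option (ι ⊕ (Σ i, A i)))).foldr dr false = false := by
    intro N
    induction N with
    | zero => rfl
    | succ N ih =>
      rw [List.replicate_succ, List.foldr_cons, ih]
      rfl
  have h0' : ∀ N, bimRun (fun _ _ => ()) dr false out ()
      (replicate N (none : Option (ι ⊕ (Σ i, A i)))) = replicate N none := by
    intro N
    induction N with
    | zero => rfl
    | succ N ih =>
      rw [List.replicate_succ]
      simp only [bimRun]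
      rw [ih, h0]
      rfl
  have h1 : ∀ (u : List (A i)) (N : ℕ), ((u.map (fun a => (Sum.inr ⟨i, a⟩ :
      ι ⊕ (Σ i, A i)))).map some ++ replicate N none).foldr dr false = false := by
    intro u N
    induction u with
    | nil => exact h0 N
    | cons a u ih =>
      rw [List.map_cons, List.map_cons, List.cons_append, List.foldr_cons, ih]
      rfl
  have h2 : ∀ (u : List (A i)) (N : ℕ), bimRun (fun _ _ => ()) dr false out ()
      ((u.map (fun a => (Sum.inr ⟨i, a⟩ : ι ⊕ (Σ i, A i)))).map some ++ replicate N none) =
        replicate (u.length + N) none := by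
    intro u N
    induction u with
    | nil =>
      rw [List.length_nil, Nat.zero_add]
      exact h0' N
    | cons a u ih =>
      rw [List.map_cons, List.map_cons, List.cons_append]
      simp only [bimRun]
      rw [ih, h1, List.length_cons, Nat.add_right_comm, List.replicate_succ]
      rfl
  have h3 : ∀ (p : List (Option (ι ⊕ (Σ i, A i)))) (z : List (Option (ι ⊕ (Σ i, A i)))),
      (p ++ some (Sum.inl i) :: z).foldr dr false = true := by
    intro p z
    induction p with
    | nil =>
      show (_ || true) = true
      rw [Bool.or_true]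
    | cons x p ih =>
      rw [List.cons_append, List.foldr_cons, ih]
      rfl
  induction p with
  | nil =>
    show bimRun _ dr false out () (some (Sum.inl i) :: (_ ++ _)) = _
    show out () (some (Sum.inl i)) (foldr dr false _) :: bimRun _ dr false out () _ = _
    rw [h2, h1, Nat.add_zero, Nat.add_right_comm, List.map_nil, List.nil_append,
      List.replicate_succ]
    rfl
  | cons x p ih =>
    have e : bimRun (fun _ _ => ()) dr false out () ((x :: p ++ blk i u).map some ++
        replicate (j + 0) none) = out () (some x) (foldr dr false ((p ++ blk i u).map some ++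
          replicate (j + 0) none)) :: bimRun (fun _ _ => ()) dr false out ()
            ((p ++ blk i u).map some ++ replicate (j + 0) none) := rfl
    rw [e, ih]
    have h4 : foldr dr false (map some (p ++ blk i u) ++ replicate (j + 0) none) = true := by
      have := h3 (p.map some) ((u.map (fun a => (Sum.inr ⟨i, a⟩ : ι ⊕ (Σ i, A i)))).map some ++
        replicate (j + 0) none)
      rw [← this]
      congr 1
      simp [blk]
    rw [h4]
    rfl

/-- the letter of the block, if there is one -/
noncomputable def ga (i : ι) : Option (ι ⊕ (Σ i, A i)) → Option (A i) :=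
  open Classical in fun x => match x with
  | some (Sum.inr y) => if h : y.1 = i then some (h ▸ y.2) else none
  | _ => none

theorem ga_inr (i : ι) (a : A i) : ga i (some (Sum.inr ⟨i, a⟩)) = some a := by
  simp [ga]

/-- change the last block -/
theorem rob_last (i : ι) {R : List (A i) → List (A i) → Prop} (h : Rob R) :
    Rob (fun w w' => ∃ p u u', R u u' ∧ w = p ++ blk i u ∧ w' = p ++ blk i u') := by
  obtain ⟨F, c, ⟨Q, S, hQ, hS, q0, r0, dl, dr, out, hrun⟩, h⟩ := h
  let DL : Q → Option (ι ⊕ (Σ i, A i)) → Q := fun q x => match x with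
    | some (Sum.inl _) => q0
    | x => dl q (ga i x)
  let DR : Option (ι ⊕ (Σ i, A i)) → Option S → Option S := fun x r => match x with
    | some (Sum.inl _) => none
    | x => r.map (dr (ga i x))
  let OUT : Q → Option (ι ⊕ (Σ i, A i)) → Option S → Option (ι ⊕ (Σ i, A i)) := fun q x r =>
    match x with
    | some (Sum.inl k) => some (Sum.inl k)
    | x => match r with
      | none => x
      | some r => (out q (ga i x) r).map (fun a => Sum.inr ⟨i, a⟩)
  refine ⟨bimRun DL DR (some r0) OUT q0, c, ⟨Q, Option S, hQ, inferInstance, q0, some r0, DL, DR,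
    OUT, fun _ => rfl⟩, ?_⟩
  rintro _ _ ⟨p, u, u', hu, rfl, rfl⟩ j
  obtain ⟨j', hj', e⟩ := h u u' hu j
  refine ⟨j', hj', ?_⟩
  have hns : ∀ (x : Option (Σ i, A i)), DR (x.map Sum.inr) = Option.map (dr (ga i (x.map Sum.inr)))
      := by
    intro x
    cases x <;> rfl
  have hfr : ∀ z : List (Option (Σ i, A i)), (z.map (Option.map Sum.inr)).foldr DR (some r0) =
      some (((z.map (Option.map Sum.inr)).map (ga i)).foldr dr r0) := by
    intro z
    induction z with
    | nil => rfl
    | cons x z ih =>
      simp only [List.map_cons, List.foldr_cons]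
      rw [ih]
      cases x <;> rfl
  have hbr : ∀ (z : List (Option (Σ i, A i))) (q : Q),
      bimRun DL DR (some r0) OUT q (z.map (Option.map Sum.inr)) =
        (bimRun dl dr r0 out q ((z.map (Option.map Sum.inr)).map (ga i))).map
          (Option.map (fun a => Sum.inr ⟨i, a⟩)) := by
    intro z
    induction z with
    | nil => intro q; rfl
    | cons x z ih =>
      intro q
      simp only [List.map_cons, bimRun]
      rw [hfr, ih]
      cases x <;> rfl
  have h3 : ∀ (p : List (Option (ι ⊕ (Σ i, A i)))) (z : List (Option (ι ⊕ (Σ i, A i)))),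
      (p ++ some (Sum.inl i) :: z).foldr DR (some r0) = none := by
    intro p z
    induction p with
    | nil => rfl
    | cons x p ih =>
      rw [List.cons_append, List.foldr_cons, ih]
      rcases x with _ | _ | _ <;> rfl
  have h4 : ∀ (p : List (Option (ι ⊕ (Σ i, A i)))) (z : List (Option (ι ⊕ (Σ i, A i)))) (q : Q),
      bimRun DL DR (some r0) OUT q (p ++ some (Sum.inl i) :: z) =
        p ++ some (Sum.inl i) :: bimRun DL DR (some r0) OUT q0 z := by
    intro p z
    induction p with
    | nil => intro q; rfl
    | cons x p ih =>
      intro q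
      rw [List.cons_append]
      simp only [bimRun]
      rw [ih, h3]
      rcases x with _ | _ | _ <;> rfl
  have e1 : ∀ (v : List (A i)) (N : ℕ), (p ++ blk i v).map some ++ replicate N none =
      p.map some ++ some (Sum.inl i) :: ((v.map (fun a => some (⟨i, a⟩ : Σ i, A i)) ++
        replicate N none).map (Option.map Sum.inr)) := by
    intro v N
    simp [blk, Function.comp_def]
  rw [e1, h4, hbr, e1]
  have e2 : ((u.map (fun a => some (⟨i, a⟩ : Σ i, A i)) ++
        replicate (j + c) none).map (Option.map Sum.inr)).map (ga i) =
      u.map some ++ replicate (j + c) none := by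
    rw [List.map_map, List.map_append, List.map_map, List.map_replicate]
    congr 1
    apply List.map_congr_left
    intro a _
    exact ga_inr i a
  rw [e2, ← hrun, e]
  simp [Function.comp_def]

/-- remember the last separator -/
def st1 : Option ι → (ι ⊕ (Σ i, A i)) → Option ι
  | _, Sum.inl k => some k
  | s, Sum.inr _ => s

theorem foldl_st1 (p : List (ι ⊕ (Σ i, A i))) (i : ι) (u : List (A i)) (s : Option ι) :
    (p ++ blk i u).foldl st1 s = some i := by
  rw [List.foldl_append]
  show (u.map (fun a => (Sum.inr ⟨i, a⟩ : ι ⊕ (Σ i, A i)))).foldl st1 (some i) = some i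
  induction u with
  | nil => rfl
  | cons a u ih => exact ih

/-- compare the last block with a word -/
def st2 [DecidableEq (ι ⊕ (Σ i, A i))] [DecidableEq ι] (i : ι) (v : List (A i)) :
    Option (Fin (v.length + 1)) → (ι ⊕ (Σ i, A i)) → Option (Fin (v.length + 1))
  | _, Sum.inl k => if k = i then some 0 else none
  | none, Sum.inr _ => none
  | some n, Sum.inr x => if h : n.1 < v.length then
      (if (Sum.inr x : ι ⊕ (Σ i, A i)) = Sum.inr ⟨i, v[n.1]⟩ then some ⟨n.1 + 1, by omega⟩
        else none) else none

theorem foldl_st2 [DecidableEq (ι ⊕ (Σ i, A i))] [DecidableEq ι] (i : ι) (v : List (A i))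
    (p : List (ι ⊕ (Σ i, A i))) (u : List (A i)) (s : Option (Fin (v.length + 1))) :
    (p ++ blk i u).foldl (st2 i v) s = some ⟨v.length, by omega⟩ ↔ u = v := by
  have h0 : ∀ u : List (A i), (u.map (fun a => (Sum.inr ⟨i, a⟩ : ι ⊕ (Σ i, A i)))).foldl
      (st2 i v) none = none := by
    intro u
    induction u with
    | nil => rfl
    | cons a u ih => exact ih
  have h1 : ∀ (u : List (A i)) (n : Fin (v.length + 1)),
      (u.map (fun a => (Sum.inr ⟨i, a⟩ : ι ⊕ (Σ i, A i)))).foldl (st2 i v) (some n) =
        some ⟨v.length, by omega⟩ ↔ u = v.drop n.1 := by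
    intro u
    induction u with
    | nil =>
      intro n
      simp only [List.map_nil, List.foldl_nil, Option.some.injEq]
      rw [eq_comm (a := ([] : List (A i))), List.drop_eq_nil_iff, Fin.ext_iff]
      have := n.2
      show n.1 = v.length ↔ _
      omega
    | cons a u ih =>
      intro n
      rw [List.map_cons, List.foldl_cons]
      by_cases hn : n.1 < v.length
      · rw [List.drop_eq_getElem_cons hn]
        by_cases ha : a = v[n.1]
        · have : st2 i v (some n) (Sum.inr ⟨i, a⟩) = some ⟨n.1 + 1, by omega⟩ := by
            simp only [st2]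
            rw [dif_pos hn, if_pos (by rw [ha])]
          rw [this, ih, ← ha]
          simp
        · have : st2 i v (some n) (Sum.inr ⟨i, a⟩) = none := by
            simp only [st2]
            rw [dif_pos hn, if_neg]
            intro h
            simp only [Sum.inr.injEq, Sigma.mk.injEq, heq_eq_eq, true_and] at h
            exact ha h
          rw [this, h0]
          constructor
          · intro h
            cases h
          · intro h
            exact absurd (List.cons.inj h).1 ha
      · have : st2 i v (some n) (Sum.inr ⟨i, a⟩) = none := by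
          simp only [st2]
          rw [dif_neg hn]
        rw [this, h0, List.drop_eq_nil_of_le (by omega)]
        constructor
        · intro h
          cases h
        · intro h
          cases h
  rw [List.foldl_append]
  show (u.map (fun a => (Sum.inr ⟨i, a⟩ : ι ⊕ (Σ i, A i)))).foldl (st2 i v)
    (if i = i then some 0 else none) = _ ↔ _
  rw [if_pos rfl, h1]
  simp

/-- the last block is determined -/
theorem blk_inj {p p' : List (ι ⊕ (Σ i, A i))} {i i' : ι} {u : List (A i)} {u' : List (A i')}
    (h : p ++ blk i u = p' ++ blk i' u') : p = p' ∧ (⟨i, u⟩ : Σ i, List (A i)) = ⟨i', u'⟩ := by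
  have key : ∀ {p p' : List (ι ⊕ (Σ i, A i))} {i i' : ι} {u : List (A i)} {u' : List (A i')},
      p ++ blk i u = p' ++ blk i' u' → p.length ≤ p'.length →
      p = p' ∧ (⟨i, u⟩ : Σ i, List (A i)) = ⟨i', u'⟩ := by
    intro p p' i i' u u' h hle
    obtain ⟨a, ha⟩ : ∃ a, p' = p ++ a := by
      have h1 : p <+: p' ++ blk i' u' := ⟨_, h⟩
      have h2 : p' <+: p' ++ blk i' u' := ⟨_, rfl⟩
      obtain ⟨a, ha⟩ := List.prefix_of_prefix_length_le h1 h2 hle
      exact ⟨a, ha.symm⟩
    subst ha
    rw [List.append_assoc, List.append_cancel_left_eq] at h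
    cases a with
    | nil =>
      rw [List.nil_append] at h
      simp only [blk, List.cons.injEq, Sum.inl.injEq] at h
      obtain ⟨rfl, h⟩ := h
      have : u = u' := by
        refine List.map_injective_iff.mpr ?_ h
        intro a b hab
        simpa using hab
      subst this
      exact ⟨by simp, rfl⟩
    | cons x a =>
      simp only [blk, List.cons_append, List.cons.injEq] at h
      have h5 : (Sum.inl i' : ι ⊕ (Σ i, A i)) ∈ u.map (fun a => (Sum.inr ⟨i, a⟩ :
          ι ⊕ (Σ i, A i))) := by
        rw [h.2]
        simp
      simp at h5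
  rcases Nat.le_total p.length p'.length with hle | hle
  · exact key h hle
  · obtain ⟨h1, h2⟩ := key h.symm hle
    exact ⟨h1.symm, h2.symm⟩

end Block

/-! ## The free product -/

section CP

open Monoid.CoprodI

variable {ι : Type} {M : ι → Type} [∀ i, Group (M i)] {A : ι → Type}

/-- the code of a list of syllables (of the inverse) -/
def code (nf : ∀ i, M i → List (A i)) : List (Σ i, M i) → List (ι ⊕ (Σ i, A i))
  | [] => []
  | x :: l => code nf l ++ blk x.1 (nf x.1 (x.2)⁻¹)

theorem code_inj (nf : ∀ i, M i → List (A i)) (hnf : ∀ i, Function.Injective (nf i)) :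
    ∀ l l' : List (Σ i, M i), code nf l = code nf l' → l = l' := by
  intro l
  induction l with
  | nil =>
    intro l' h
    cases l' with
    | nil => rfl
    | cons x l' =>
      have := congrArg List.length h
      simp [code, blk] at this
  | cons x l ih =>
    intro l' h
    cases l' with
    | nil =>
      have := congrArg List.length h
      simp [code, blk] at this
    | cons y l' =>
      obtain ⟨h1, h2⟩ := blk_inj h
      obtain ⟨i, m⟩ := x
      obtain ⟨i', m'⟩ := y
      simp only [Sigma.mk.injEq] at h2
      obtain ⟨rfl, h2⟩ := h2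
      have h3 := hnf _ (eq_of_heq h2)
      rw [inv_inj] at h3
      rw [h3, ih l' h1]

theorem foldl_code [Nonempty ι] (nf : ∀ i, M i → List (A i)) (l : List (Σ i, M i)) :
    (code nf l).foldl st1 none = l.head?.map Sigma.fst := by
  cases l with
  | nil => rfl
  | cons x l => exact foldl_st1 _ _ _ _

theorem NF.free [Finite ι] (h : ∀ i, NF (M i)) : NF (Monoid.CoprodI M) := by
  classical
  choose A hA nf hinj hR using h
  have hA' : ∀ i, Finite (A i) := hA
  let nfW : Monoid.CoprodI M → List (ι ⊕ (Σ i, A i)) := fun g =>
    code nf (g⁻¹ • (Word.empty : Word M)).toList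
  refine ⟨ι ⊕ (Σ i, A i), inferInstance, nfW, ?_, ?_⟩
  · intro g g' hgg
    have h1 := Word.ext (code_inj nf hinj _ _ hgg)
    have h2 := Word.equiv.injective (a₁ := g⁻¹) (a₂ := g'⁻¹) h1
    exact inv_injective h2
  · intro s
    induction s using Monoid.CoprodI.induction_on with
    | one =>
      refine rob_mono rob_id ?_
      rintro _ _ ⟨g, rfl, rfl⟩
      rw [mul_one]
    | mul x y hx hy =>
      refine rob_mono (rob_comp hx hy) ?_
      rintro _ _ ⟨g, rfl, rfl⟩
      exact ⟨_, ⟨g, rfl, rfl⟩, g * x, rfl, by rw [mul_assoc]⟩
    | of i m =>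
      have r1 := rob_ite (A := ι ⊕ (Σ i, A i)) st1 none (fun q => decide (q = some i))
        rob_id (rob_app (blk i (nf i 1)))
      have r2 := rob_last i (hR i m)
      have r3 := rob_ite (A := ι ⊕ (Σ i, A i)) (st2 i (nf i 1)) none
        (fun q => decide (q = some ⟨(nf i 1).length, by omega⟩)) rob_erase rob_id
      refine rob_mono (rob_comp r1 (rob_comp r2 r3)) ?_
      rintro _ _ ⟨g, rfl, rfl⟩
      set w : Word M := g⁻¹ • Word.empty with hw
      have hw2 : (g * of m)⁻¹ • (Word.empty : Word M) =
          Word.rcons { Word.equivPair i w with head := m⁻¹ * (Word.equivPair i w).head } := by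
        rw [mul_inv_rev, mul_smul, ← map_inv, Word.of_smul_def]
      have hw1 : w = Word.rcons (Word.equivPair i w) := by
        rw [← Word.equivPair_symm, Equiv.symm_apply_apply]
      show ∃ w', _ ∧ _
      have e1 : nfW g = code nf (Word.rcons (Word.equivPair i w)).toList := by
        rw [← hw1]
      have e2 : nfW (g * of m) = code nf (Word.rcons
          { Word.equivPair i w with head := m⁻¹ * (Word.equivPair i w).head }).toList := by
        rw [← hw2]
      rw [e1, e2]
      obtain ⟨hd, tl, hne⟩ := Word.equivPair i w
      refine ⟨code nf tl.toList ++ blk i (nf i hd⁻¹), ?_, code nf tl.toList ++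
        blk i (nf i (hd⁻¹ * m)), ⟨_, _, _, ⟨hd⁻¹, rfl, rfl⟩, rfl, rfl⟩, ?_⟩
      · by_cases h1 : hd = 1
        · subst h1
          have e3 : (Word.rcons ⟨1, tl, hne⟩ : Word M) = tl := dif_pos rfl
          rw [e3, if_neg]
          · rw [inv_one]
          · have : Nonempty ι := ⟨i⟩
            rw [foldl_code, decide_eq_true_iff]
            exact hne
        · have e3 : (Word.rcons ⟨hd, tl, hne⟩ : Word M).toList = ⟨i, hd⟩ :: tl.toList := by
            unfold Word.rcons
            rw [dif_neg h1]
            rfl
          rw [e3, if_pos]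
          · rfl
          · show decide ((code nf tl.toList ++ blk i (nf i hd⁻¹)).foldl st1 none = some i) = true
            rw [foldl_st1, decide_eq_true_iff]
      · by_cases h1 : m⁻¹ * hd = 1
        · have e3 : (Word.rcons ⟨m⁻¹ * hd, tl, hne⟩ : Word M) = tl := dif_pos h1
          have e4 : hd⁻¹ * m = 1 := by
            rw [inv_mul_eq_one] at h1
            rw [h1, inv_mul_cancel]
          rw [e3, if_pos]
          · exact ⟨i, _, rfl⟩
          · rw [decide_eq_true_iff, foldl_st2, e4]
        · have e3 : (Word.rcons ⟨m⁻¹ * hd, tl, hne⟩ : Word M).toList =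
              ⟨i, m⁻¹ * hd⟩ :: tl.toList := by
            unfold Word.rcons
            rw [dif_neg h1]
            rfl
          rw [e3, if_neg]
          · show code nf tl.toList ++ blk i (nf i (m⁻¹ * hd)⁻¹) = _
            rw [mul_inv_rev, inv_inv]
          · rw [decide_eq_true_iff, foldl_st2]
            intro h2
            have h3 := hinj i h2
            apply h1
            rw [inv_mul_eq_one] at h3 ⊢
            exact h3.symm

end CP

end Pool.Agent.KS6_76.TFX
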