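import Pool.Agent.KS6_76.TFX.Base

/-!
# Direct products and overgroups of finite index (MP_7161f1_al)
-/

set_option autoImplicit false

namespace Pool.Agent.KS6_76.TFX

open Pool.Agent.R652.CA Pool.Agent.R652.TF List

/-! ## Direct products -/

/-- two words written in parallel -/
def cv {A B : Type} (u : List A) (v : List B) : List (Option A × Option B) :=
  (List.range (max u.length v.length)).map (fun n => (u[n]?, v[n]?))

theorem pad_getElem? {A : Type} (u : List A) (k n : ℕ) :
    (u.map some ++ replicate k none)[n]? = if n < u.length + k then some (u[n]?) else none := by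
  by_cases h : n < u.length
  · rw [List.getElem?_append_left (by simpa using h), if_pos (by omega)]
    simp [List.getElem?_eq_getElem h]
  · rw [List.getElem?_append_right (by simpa using h)]
    rw [List.getElem?_eq_none (Nat.le_of_not_lt h)]
    by_cases h' : n < u.length + k
    · rw [if_pos h', List.getElem?_replicate, if_pos]
      simp only [List.length_map]
      omega
    · rw [if_neg h', List.getElem?_replicate, if_neg]
      simp only [List.length_map]
      omega

theorem cv_getElem? {A B : Type} (u : List A) (v : List B) (n : ℕ) :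
    (cv u v)[n]? = if n < max u.length v.length then some (u[n]?, v[n]?) else none := by
  unfold cv
  by_cases h : n < max u.length v.length
  · rw [if_pos h, List.getElem?_map, List.getElem?_range h]
    rfl
  · rw [if_neg h, List.getElem?_eq_none]
    simpa using h

theorem cv_length {A B : Type} (u : List A) (v : List B) :
    (cv u v).length = max u.length v.length := by
  simp [cv]

theorem cv_inj {A B : Type} {u u' : List A} {v v' : List B} (h : cv u v = cv u' v') :
    u = u' ∧ v = v' := by
  have hl : max u.length v.length = max u'.length v'.length := by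
    rw [← cv_length, ← cv_length, h]
  have key : ∀ n : ℕ, u[n]? = u'[n]? ∧ v[n]? = v'[n]? := by
    intro n
    have h1 := congrArg (fun l : List (Option A × Option B) => l[n]?) h
    simp only [cv_getElem?] at h1
    rw [← hl] at h1
    by_cases hn : n < max u.length v.length
    · rw [if_pos hn, if_pos hn] at h1
      simp only [Option.some.injEq, Prod.mk.injEq] at h1
      exact h1
    · rw [List.getElem?_eq_none (by omega), List.getElem?_eq_none (by omega),
        List.getElem?_eq_none (by omega), List.getElem?_eq_none (by omega)]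
      exact ⟨rfl, rfl⟩
  exact ⟨List.ext_getElem? fun n => (key n).1, List.ext_getElem? fun n => (key n).2⟩

/-- blanks in both tracks give a blank -/
def kap {A B : Type} : Option A × Option B → Option (Option A × Option B)
  | (none, none) => none
  | p => some p

theorem kap_none {A B : Type} : kap ((none, none) : Option A × Option B) = none := rfl
theorem kap_some {A B : Type} (p : Option A × Option B) (h : p ≠ (none, none)) :
    kap p = some p := by
  obtain ⟨a, b⟩ := p
  cases a <;> cases b
  · exact absurd rfl h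
  · rfl
  · rfl
  · rfl

theorem rob_prod {A B : Type} {R₁ : List A → List A → Prop} {R₂ : List B → List B → Prop}
    (h₁ : Rob R₁) (h₂ : Rob R₂) :
    Rob (fun w w' => ∃ u u' v v', R₁ u u' ∧ R₂ v v' ∧ w = cv u v ∧ w' = cv u' v') := by
  obtain ⟨F₁, c₁, hF₁, h₁⟩ := h₁
  obtain ⟨F₂, c₂, hF₂, h₂⟩ := h₂
  let p₁ : Option (Option A × Option B) → Option A := fun x => x.bind (fun y => y.1)
  let p₂ : Option (Option A × Option B) → Option B := fun x => x.bind (fun y => y.2)
  refine ⟨fun w => ((F₁ (w.map p₁)).zip (F₂ (w.map p₂))).map kap, c₁ + c₂, ?_, ?_⟩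
  · exact bim_comp _ _ _ _ _ (bim_zip _ _ _ _ _
      (bim_comp _ _ _ _ _ (bim_map _ _ p₁) hF₁) (bim_comp _ _ _ _ _ (bim_map _ _ p₂) hF₂))
      (bim_map _ _ kap)
  rintro _ _ ⟨u, u', v, v', hu, hv, rfl, rfl⟩ j
  set M := max u.length v.length with hM
  have e₁ : ((cv u v).map some ++ replicate (j + (c₁ + c₂)) none).map p₁ =
      u.map some ++ replicate ((M - u.length) + j + c₂ + c₁) none := by
    apply List.ext_getElem?
    intro n
    rw [List.getElem?_map, pad_getElem?, pad_getElem?, cv_length, cv_getElem?]
    by_cases hn : n < M + (j + (c₁ + c₂))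
    · have hn2 : n < u.length + (M - u.length + j + c₂ + c₁) := by omega
      rw [if_pos hn, if_pos hn2]
      by_cases hn' : n < M
      · rw [if_pos hn']
        rfl
      · rw [if_neg hn', List.getElem?_eq_none (show u.length ≤ n by omega)]
        rfl
    · have hn2 : ¬ n < u.length + (M - u.length + j + c₂ + c₁) := by omega
      rw [if_neg hn, if_neg hn2]
      rfl
  have e₂ : ((cv u v).map some ++ replicate (j + (c₁ + c₂)) none).map p₂ =
      v.map some ++ replicate ((M - v.length) + j + c₁ + c₂) none := by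
    apply List.ext_getElem?
    intro n
    rw [List.getElem?_map, pad_getElem?, pad_getElem?, cv_length, cv_getElem?]
    by_cases hn : n < M + (j + (c₁ + c₂))
    · have hn2 : n < v.length + (M - v.length + j + c₁ + c₂) := by omega
      rw [if_pos hn, if_pos hn2]
      by_cases hn' : n < M
      · rw [if_pos hn']
        rfl
      · rw [if_neg hn', List.getElem?_eq_none (show v.length ≤ n by omega)]
        rfl
    · have hn2 : ¬ n < v.length + (M - v.length + j + c₁ + c₂) := by omega
      rw [if_neg hn, if_neg hn2]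
      rfl
  obtain ⟨j₁, hj₁, f₁⟩ := h₁ u u' hu ((M - u.length) + j + c₂)
  obtain ⟨j₂, hj₂, f₂⟩ := h₂ v v' hv ((M - v.length) + j + c₁)
  have l₁ := congrArg List.length f₁
  rw [IsBim.length hF₁] at l₁
  have l₂ := congrArg List.length f₂
  rw [IsBim.length hF₂] at l₂
  simp only [List.length_append, List.length_map, List.length_replicate] at l₁ l₂
  refine ⟨min j₁ j₂, by omega, ?_⟩
  show ((F₁ (_)).zip (F₂ (_))).map kap = _
  rw [e₁, e₂, f₁, f₂]
  apply List.ext_getElem?
  intro n
  rw [List.getElem?_map, List.zip_eq_zipWith, List.getElem?_zipWith, pad_getElem?, pad_getElem?,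
    pad_getElem?, cv_length, cv_getElem?]
  by_cases hn : n < u'.length + j₁
  · rw [if_pos hn, if_pos (by omega), if_pos (by omega)]
    show some (kap (u'[n]?, v'[n]?)) = _
    by_cases hn' : n < max u'.length v'.length
    · rw [if_pos hn', kap_some]
      intro h
      rw [Prod.mk.injEq, List.getElem?_eq_none_iff, List.getElem?_eq_none_iff] at h
      omega
    · rw [if_neg hn', List.getElem?_eq_none (by omega), List.getElem?_eq_none (by omega)]
      rfl
  · rw [if_neg hn, if_neg (by omega), if_neg (by omega)]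
    rfl

theorem NF.prod {G H : Type} [Group G] [Group H] (hG : NF G) (hH : NF H) : NF (G × H) := by
  obtain ⟨A, hA, nf, hinj, hR⟩ := hG
  obtain ⟨B, hB, nf', hinj', hR'⟩ := hH
  refine ⟨Option A × Option B, inferInstance, fun x => cv (nf x.1) (nf' x.2), ?_, ?_⟩
  · intro x y h
    obtain ⟨h1, h2⟩ := cv_inj h
    exact Prod.ext (hinj h1) (hinj' h2)
  · intro s
    refine rob_mono (rob_prod (hR s.1) (hR' s.2)) ?_
    rintro _ _ ⟨g, rfl, rfl⟩
    exact ⟨_, _, _, _, ⟨g.1, rfl, rfl⟩, ⟨g.2, rfl, rfl⟩, rfl, rfl⟩

/-! ## Overgroups of finite index -/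

section Over

variable {ι A : Type}

/-- words preceded by an index -/
def pre (i : ι) (u : List A) : List (ι ⊕ A) := Sum.inl i :: u.map Sum.inr

/-- the letter, if there is one -/
def gt : Option (ι ⊕ A) → Option A
  | some (Sum.inr a) => some a
  | _ => none

theorem rob_pre [Finite ι] (σ : ι → ι) (R : ι → List A → List A → Prop) (h : ∀ i, Rob (R i)) :
    Rob (fun w w' => ∃ i u u', R i u u' ∧ w = pre i u ∧ w' = pre (σ i) u') := by
  classical
  have := Fintype.ofFinite ι
  choose F c hF h using h
  unfold IsBim at hF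
  choose Q R' hQ hR' q0 r0 dl dr out hrun using hF
  have hQ' : ∀ i, Finite (Q i) := hQ
  have hR'' : ∀ i, Finite (R' i) := hR'
  let DL : Option (Σ i, Q i) → Option (ι ⊕ A) → Option (Σ i, Q i) := fun s x => match s with
    | some q => some ⟨q.1, dl q.1 q.2 (gt x)⟩
    | none => match x with
      | some (Sum.inl i) => some ⟨i, q0 i⟩
      | _ => none
  let DR : Option (ι ⊕ A) → (∀ i, R' i) → (∀ i, R' i) := fun x r i => dr i (gt x) (r i)
  let OUT : Option (Σ i, Q i) → Option (ι ⊕ A) → (∀ i, R' i) → Option (ι ⊕ A) := fun s x r =>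
    match s with
    | some q => (out q.1 q.2 (gt x) (r q.1)).map Sum.inr
    | none => match x with
      | some (Sum.inl i) => some (Sum.inl (σ i))
      | _ => none
  refine ⟨bimRun DL DR r0 OUT none, ∑ i, c i, ⟨_, _, inferInstance, inferInstance, _, _, DL, DR,
    OUT, fun _ => rfl⟩, ?_⟩
  rintro _ _ ⟨i, u, u', hu, rfl, rfl⟩ j
  have hc : c i ≤ ∑ i, c i := Finset.single_le_sum (fun _ _ => Nat.zero_le _) (Finset.mem_univ i)
  obtain ⟨j', hj', e⟩ := h i u u' hu (j + (∑ i, c i - c i))
  refine ⟨j', by omega, ?_⟩
  have hr : ∀ (w : List (Option (ι ⊕ A))) (i : ι),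
      w.foldr DR r0 i = (w.map gt).foldr (dr i) (r0 i) := by
    intro w i
    induction w with
    | nil => rfl
    | cons x w ih =>
      simp only [List.foldr_cons, List.map_cons]
      rw [← ih]
  have hl : ∀ (w : List (Option (ι ⊕ A))) (q : Q i), bimRun DL DR r0 OUT (some ⟨i, q⟩) w =
      (bimRun (dl i) (dr i) (r0 i) (out i) q (w.map gt)).map (Option.map Sum.inr) := by
    intro w
    induction w with
    | nil => intro q; rfl
    | cons x w ih =>
      intro q
      simp only [bimRun, List.map_cons]
      rw [← ih, ← hr]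
  have hg : (((u.map Sum.inr).map some ++ replicate (j + ∑ i, c i) none :
      List (Option (ι ⊕ A)))).map gt = u.map some ++ replicate (j + ∑ i, c i) none := by
    rw [List.map_append, List.map_map, List.map_map, List.map_replicate]
    rfl
  show bimRun DL DR r0 OUT none (some (Sum.inl i) :: ((u.map Sum.inr).map some ++ _)) = _
  show some (Sum.inl (σ i)) :: bimRun DL DR r0 OUT (some ⟨i, q0 i⟩) _ = _
  rw [hl, hg, ← hrun]
  have ee : j + ∑ i, c i = j + (∑ i, c i - c i) + c i := by omega
  rw [ee, e]
  simp [pre, Function.comp_def]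

theorem NF.over {G H : Type} [Group G] [Group H] (h : NF H) (φ : H →* G)
    (hφ : Function.Injective φ) (hfin : φ.range.FiniteIndex) : NF G := by
  classical
  obtain ⟨A, hA, nf, hinj, hR⟩ := h
  have hι : Finite (G ⧸ φ.range) := inferInstance
  -- transversal
  have hk : ∀ g : G, ∃ x : H, φ x = g * Quotient.out ((g⁻¹ : G) : G ⧸ φ.range) := by
    intro g
    have h1 : ((Quotient.out ((g⁻¹ : G) : G ⧸ φ.range) : G) : G ⧸ φ.range) = ((g⁻¹ : G) : _) :=
      Quotient.out_eq _
    have h2 := (QuotientGroup.eq.mp h1.symm)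
    rw [inv_inv] at h2
    exact h2
  choose x hx using hk
  have hk2 : ∀ (s : G) (i : G ⧸ φ.range), ∃ y : H,
      φ y = (Quotient.out i)⁻¹ * s * Quotient.out (s⁻¹ • i) := by
    intro s i
    have h1 : ((Quotient.out (s⁻¹ • i) : G) : G ⧸ φ.range) = ((s⁻¹ * Quotient.out i : G) : _) := by
      have h3 : ((Quotient.out (s⁻¹ • i) : G) : G ⧸ φ.range) = s⁻¹ • i := Quotient.out_eq _
      have h4 : s⁻¹ • i = s⁻¹ • ((Quotient.out i : G) : G ⧸ φ.range) := by
        congr 1
        exact (Quotient.out_eq _).symm
      rw [h3, h4]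
      rfl
    have h2 := (QuotientGroup.eq.mp h1.symm)
    rw [mul_inv_rev, inv_inv] at h2
    exact h2
  choose y hy using hk2
  refine ⟨(G ⧸ φ.range) ⊕ A, inferInstance, fun g => pre ((g⁻¹ : G) : G ⧸ φ.range) (nf (x g)),
    ?_, ?_⟩
  · intro g g' hgg
    simp only [pre, List.cons.injEq, Sum.inl.injEq] at hgg
    have h1 := hinj (List.map_injective_iff.mpr Sum.inr_injective hgg.2)
    have h2 := hx g
    rw [h1, hx g', ← hgg.1] at h2
    exact (mul_right_cancel h2).symm
  · intro s
    refine rob_mono (rob_pre (fun i => s⁻¹ • i) _ (fun i => hR (y s i))) ?_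
    rintro _ _ ⟨g, rfl, rfl⟩
    refine ⟨((g⁻¹ : G) : G ⧸ φ.range), _, _, ⟨x g, rfl, rfl⟩, rfl, ?_⟩
    have h1 : (((g * s)⁻¹ : G) : G ⧸ φ.range) = s⁻¹ • ((g⁻¹ : G) : G ⧸ φ.range) := by
      rw [mul_inv_rev]
      rfl
    have h2 : x (g * s) = x g * y s ((g⁻¹ : G) : G ⧸ φ.range) := by
      apply hφ
      rw [map_mul, hx, hx, hy, h1]
      group
    show pre (((g * s)⁻¹ : G) : G ⧸ φ.range) (nf (x (g * s))) = _
    rw [h2, h1]

end Over

end Pool.Agent.KS6_76.TFX
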