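import Pool.Agent.KS6_76.TFX.Fgrp
import Pool.Agent.KS6_76.TFX.Prod
import Pool.Agent.KS6_76.TFX.Free

/-!
# The closure class of Thompson's group F (MP_7161f1_al)
-/

set_option autoImplicit false

namespace Pool.Agent.KS6_76.TFX

open Pool.Agent.R652.CA Pool.Agent.R652.TF List

/-- The smallest class of groups which contains Thompson's group `F` (`FG`, given by its standard
finite presentation), and which contains
* with a group every group that embeds into it (subgroups, isomorphic copies),
* with a group every group that contains (a copy of) it as a subgroup of finite index,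
* with two groups their direct product,
* with a finite family of groups its free product. -/
inductive ThompsonClass : (G : Type) → Group G → Prop
  | thompson : ThompsonClass FG inferInstance
  | subgroup {G H : Type} [hG : Group G] [hH : Group H] (φ : H →* G)
      (hφ : Function.Injective φ) (h : ThompsonClass G hG) : ThompsonClass H hH
  | overgroup {G H : Type} [hG : Group G] [hH : Group H] (φ : H →* G)
      (hφ : Function.Injective φ) (hfin : φ.range.FiniteIndex) (h : ThompsonClass H hH) :
      ThompsonClass G hG
  | prod {G H : Type} [hG : Group G] [hH : Group H] (h₁ : ThompsonClass G hG)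
      (h₂ : ThompsonClass H hH) : ThompsonClass (G × H) inferInstance
  | freeProduct {ι : Type} [Finite ι] (M : ι → Type) [hM : ∀ i, Group (M i)]
      (h : ∀ i, ThompsonClass (M i) (hM i)) : ThompsonClass (Monoid.CoprodI M) inferInstance

theorem ThompsonClass.nf {G : Type} {hG : Group G} (h : ThompsonClass G hG) : @NF G hG := by
  induction h with
  | thompson => exact nf_thompson
  | subgroup φ hφ _ ih => exact ih.sub φ hφ
  | overgroup φ hφ hfin _ ih => exact ih.over φ hφ hfin
  | prod _ _ ih₁ ih₂ => exact ih₁.prod ih₂
  | freeProduct M _ ih => exact NF.free ih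

/-! ## The integers -/

/-- the exponent of `x_0` -/
noncomputable def expo : FG →* Multiplicative ℤ :=
  PresentedGroup.toGroup (f := ![Multiplicative.ofAdd 1, 1]) (by
    intro r hr
    rcases hr with rfl | hr
    · simp [rel1, cmt]
    · rw [Set.mem_singleton_iff] at hr
      subst hr
      simp [rel2, cmt])

theorem expo_g0 : expo g0 = Multiplicative.ofAdd 1 := by
  simp [expo, g0]

theorem class_int : ThompsonClass (Multiplicative ℤ) inferInstance := by
  refine ThompsonClass.subgroup (zpowersHom FG g0) ?_ ThompsonClass.thompson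
  have h : ∀ x : Multiplicative ℤ, expo (zpowersHom FG g0 x) = x := by
    intro x
    rw [zpowersHom_apply, map_zpow, expo_g0, ← ofAdd_zsmul]
    simp
  exact Function.LeftInverse.injective h

/-! ## The presentation printed in the problem file -/

/-- first relator `[x0⁻¹ x1, x0⁻¹ x1 x0]`, as printed -/
def prel1 : FreeGroup (Fin 2) := cmt ((fx 0)⁻¹ * fx 1) ((fx 0)⁻¹ * fx 1 * fx 0)

/-- second relator `[x0⁻¹ x1, x0⁻² x1 x0²]`, as printed -/
def prel2 : FreeGroup (Fin 2) := cmt ((fx 0)⁻¹ * fx 1) ((fx 0)⁻¹ ^ 2 * fx 1 * fx 0 ^ 2)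

/-- the group with the presentation printed in the problem file (it is the free abelian group of
rank two) -/
abbrev PrintedGroup : Type := PresentedGroup ({prel1, prel2} : Set (FreeGroup (Fin 2)))

/-- the exponents of `x_0` and `x_1` -/
noncomputable def pexpo : PrintedGroup →* Multiplicative ℤ × Multiplicative ℤ :=
  PresentedGroup.toGroup (f := ![(Multiplicative.ofAdd 1, 1), (1, Multiplicative.ofAdd 1)]) (by
    intro r hr
    rcases hr with rfl | hr
    · simp [prel1, cmt]
    · rw [Set.mem_singleton_iff] at hr
      subst hr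
      simp [prel2, cmt])

theorem map_prel1 {H : Type} [Group H] (f : FreeGroup (Fin 2) →* H) : f prel1 =
    (f (fx 0))⁻¹ * f (fx 1) * ((f (fx 0))⁻¹ * f (fx 1) * f (fx 0)) *
      ((f (fx 0))⁻¹ * f (fx 1))⁻¹ * ((f (fx 0))⁻¹ * f (fx 1) * f (fx 0))⁻¹ := by
  simp only [prel1, cmt, map_mul, map_inv]

theorem comm_of {H : Type} [Group H] (a b : H)
    (h : a⁻¹ * b * (a⁻¹ * b * a) * (a⁻¹ * b)⁻¹ * (a⁻¹ * b * a)⁻¹ = 1) : Commute a b := by
  have h2 : a⁻¹ * b * (a⁻¹ * b * a) = (a⁻¹ * b * a) * (a⁻¹ * b) := by
    rw [← mul_inv_eq_one, ← h]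
    group
  have h3 : a⁻¹ * b * a = b := by
    have : (a⁻¹ * b) * (a⁻¹ * b * a) = (a⁻¹ * b) * b := by
      rw [h2]
      group
    exact mul_left_cancel this
  show a * b = b * a
  calc a * b = a * (a⁻¹ * b * a) := by rw [h3]
    _ = b * a := by group

theorem printed_comm : Commute (PresentedGroup.of 0 : PrintedGroup) (PresentedGroup.of 1) := by
  have h : (PresentedGroup.mk ({prel1, prel2} : Set (FreeGroup (Fin 2)))) prel1 = 1 :=
    PresentedGroup.one_of_mem (Set.mem_insert _ _)
  rw [map_prel1] at h
  exact comm_of _ _ h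

theorem printed_form (g : PrintedGroup) : ∃ m n : ℤ,
    g = (PresentedGroup.of 0 : PrintedGroup) ^ m * (PresentedGroup.of 1 : PrintedGroup) ^ n := by
  induction g using PresentedGroup.induction_on with
  | _ z =>
    induction z using FreeGroup.induction_on with
    | C1 => exact ⟨0, 0, by simp⟩
    | of i =>
      fin_cases i
      · exact ⟨1, 0, by simp; rfl⟩
      · exact ⟨0, 1, by simp; rfl⟩
    | inv_of i ih =>
      obtain ⟨m, n, h⟩ := ih
      refine ⟨-m, -n, ?_⟩
      rw [map_inv, h, mul_inv_rev, ← zpow_neg, ← zpow_neg]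
      exact (printed_comm.symm.zpow_zpow _ _).eq
    | mul x y hx hy =>
      obtain ⟨m, n, h⟩ := hx
      obtain ⟨m', n', h'⟩ := hy
      refine ⟨m + m', n + n', ?_⟩
      rw [map_mul, h, h', zpow_add, zpow_add]
      have := (printed_comm.symm.zpow_zpow n m').eq
      calc _ = (PresentedGroup.of 0 : PrintedGroup) ^ m *
            ((PresentedGroup.of 1 : PrintedGroup) ^ n * (PresentedGroup.of 0) ^ m') *
              (PresentedGroup.of 1) ^ n' := by group
        _ = _ := by
          rw [this]
          group

theorem class_printed : ThompsonClass PrintedGroup inferInstance := by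
  refine ThompsonClass.subgroup pexpo ?_ (ThompsonClass.prod class_int class_int)
  rw [injective_iff_map_eq_one]
  intro g hg
  obtain ⟨m, n, rfl⟩ := printed_form g
  have h0 : pexpo (PresentedGroup.of 0) = (Multiplicative.ofAdd 1, 1) := by simp [pexpo]
  have h1 : pexpo (PresentedGroup.of 1) = (1, Multiplicative.ofAdd 1) := by simp [pexpo]
  rw [map_mul, map_zpow, map_zpow, h0, h1] at hg
  have h2 := congrArg (fun x => Multiplicative.toAdd x.1) hg
  have h3 := congrArg (fun x => Multiplicative.toAdd x.2) hg
  simp at h2 h3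
  rw [h2, h3]
  simp

end Pool.Agent.KS6_76.TFX
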